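import Pool.Agent.P8H60.EN.Stm2
import Pool.Agent.R846.VS.J

/-! # Project EN, package PL: the theorem for given places -/

set_option autoImplicit false

open Filter Topology MeasureTheory Set

namespace Pool.Agent.P8H71.EN

open SG (ord NZ)
open Pool.Agent.R846.UL (cn cn_eq)
open Pool.Agent.R846.VS (palm_unif)
open Pool.Agent.P8H60.BC (pG)
open Pool.Agent.P8H60.BW (W hitW)
open Pool.Agent.P8H60.EN

/-- package PL -/
theorem t_PL : S_PLA := by
  classical
  intro hRUN δ ε θ η hδ hε hθ hη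
  obtain ⟨e, he⟩ : ∃ e : ℝ, e = min (η / 4) 1 := ⟨_, rfl⟩
  have he0 : 0 < e := by rw [he]; exact lt_min (by positivity) one_pos
  have he1 : e ≤ 1 := by rw [he]; exact min_le_right _ _
  have heη : e ≤ η / 4 := by rw [he]; exact min_le_left _ _
  obtain ⟨N₁, hN₁, hasm⟩ := Pool.Agent.R320.CL.asm e he0 he1
  obtain ⟨S', T1, hT1, hpalm⟩ := palm_unif he0 he1
  obtain ⟨c, hc0, hc1, L₀, hrun⟩ := hRUN δ ε (θ / 2) (e / (8 * (S' + 1))) hδ hε (by positivity)
    (by positivity)
  obtain ⟨L₁, hL₁⟩ : ∃ L₁ : ℕ, ∀ L : ℕ, L₁ ≤ L → 2 ≤ (L : ℝ) ^ (θ / 2) := by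
    have h := (tendsto_rpow_atTop (by positivity : 0 < θ / 2)).comp
      (tendsto_natCast_atTop_atTop (R := ℝ))
    exact (h.eventually_ge_atTop 2).exists_forall_of_atTop
  refine ⟨c, hc0, hc1, L₀ + L₁ + N₁ + ⌈4 / η⌉₊ + ⌈T1⌉₊ + 2 * S' + 3,
    fun L K N hL hLN hK1 hK2 k hk1 hk2 𝒲 h𝒲 => ?_⟩
  have hL3 : (3 : ℝ) ≤ L := by exact_mod_cast (by omega : 3 ≤ L)
  have hL0 : (0 : ℝ) < L := by linarith
  have hLθ : 2 ≤ (L : ℝ) ^ (θ / 2) := hL₁ L (by omega)
  have e1 : (L : ℝ) ^ (1 + θ) = (L : ℝ) ^ (1 + θ / 2) * (L : ℝ) ^ (θ / 2) := by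
    rw [← Real.rpow_add hL0]
    congr 1
    ring
  have e2 : (L : ℝ) ^ (1 + θ / 2) = L * (L : ℝ) ^ (θ / 2) := by
    rw [Real.rpow_add hL0, Real.rpow_one]
  have hbig : 2 * (L : ℝ) ^ (1 + θ / 2) ≤ Real.log N := by
    refine le_trans ?_ hLN
    rw [e1]
    nlinarith [Real.rpow_nonneg hL0.le (1 + θ / 2)]
  have hLbig : (L : ℝ) ≤ (L : ℝ) ^ (1 + θ / 2) := by
    rw [e2]
    nlinarith
  have h2L : 2 * (L : ℝ) ≤ Real.log N := by linarith
  have hlL : Real.log L ≤ L := by
    have := Real.log_le_sub_one_of_pos hL0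
    linarith
  have hLη : 4 / η ≤ L := (Nat.le_ceil _).trans (by exact_mod_cast (by omega : ⌈4 / η⌉₊ ≤ L))
  rw [div_le_iff₀ hη] at hLη
  have hlN : 0 < Real.log N := by linarith
  have hN0 : (0 : ℝ) < N := by
    rcases Nat.eq_zero_or_pos N with h | h
    · rw [h] at hlN
      simp at hlN
    · exact_mod_cast h
  have hNL : (L : ℝ) ^ 2 ≤ N := by
    rw [← Real.log_le_log_iff (by positivity) hN0, Real.log_pow]
    push_cast
    linarith
  have hNN : N₁ ≤ N := by
    have h1 : (L : ℝ) ≤ N := by nlinarith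
    have h2 : L ≤ N := by exact_mod_cast h1
    omega
  -- the property
  set E : ℕ → Prop := fun n => ∃ v ∈ 𝒲, ∃ b : ℝ,
    (pG δ + ε) * K ≤ (hitW δ L n k (fun i => v i + b) : ℝ) with hE
  have g1 := hasm N hNN (fun n => E (n + L)) e he0.le (by linarith)
    (fun T hT hlog => by
      rw [mul_comm (T * Real.log T / (2 * Real.pi)) e]
      have hLT' : (L : ℝ) ^ (1 + θ / 2) ≤ Real.log T := by linarith
      have hLL : (L : ℝ) ≤ Real.log T := hLbig.trans hLT'
      have hT0 : 0 < T := by linarith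
      have hLT : (L : ℝ) ≤ T := by
        have := Real.log_le_sub_one_of_pos hT0
        linarith
      have hTT1 : T1 ≤ T := by
        have h1 : T1 ≤ L := (Nat.le_ceil T1).trans (by exact_mod_cast (by omega : ⌈T1⌉₊ ≤ L))
        linarith
      refine hpalm T hTT1 (fun s => {t | ∃ v ∈ 𝒲, ∃ b : ℝ, (pG δ + ε) * K ≤
          (({i | |W (ord (NZ t + 1 + (L - s + k i))) - (v i + b)| ≤ δ * Real.sqrt (2 * Real.log L) /
            (2 * Real.pi)} : Set (Fin K)).ncard : ℝ)}) (fun n => E (n + L)) ?_ ?_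
      · intro s hs
        refine le_trans (measure_mono ?_) (hrun L K T (by omega) hT hLT' hK1 hK2
          (fun i => L - s + k i) (fun i => ?_) (fun i j hij => ?_) 𝒲 h𝒲)
        · rintro t ⟨h8, h9⟩
          exact ⟨h9, h8⟩
        · have := hk1 i
          omega
        · have h1 : ((L - s + k i : ℕ) : ℝ) - ((L - s + k j : ℕ) : ℝ) = (k i : ℝ) - k j := by
            push_cast
            ring
          rw [h1]
          exact hk2 i j hij
      · intro n hn hnT s hs t _ _ hts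
        obtain ⟨v, hv, b, hcnt⟩ := hn
        refine ⟨v, hv, b, hcnt.trans ?_⟩
        have hsub : ({i | |W (ord (n + L + k i)) - (v i + b)| ≤ δ * Real.sqrt (2 * Real.log L) /
            (2 * Real.pi)} : Set (Fin K)) ⊆
            {i | |W (ord (NZ t + 1 + (L - s + k i))) - (v i + b)| ≤ δ * Real.sqrt (2 * Real.log L) /
              (2 * Real.pi)} := by
          intro i hi
          rw [Set.mem_ofPred_eq] at hi ⊢
          have e1 : NZ t + 1 + (L - s + k i) = n + L + k i := by omega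
          rw [e1]
          exact hi
        exact_mod_cast Set.ncard_le_ncard hsub (Set.toFinite _))
  rw [cn_eq]
  have h1 : (Finset.Icc 1 N).filter E ⊆ Finset.Icc 1 L ∪
      ((Finset.Icc 1 N).filter (fun n => E (n + L))).image (fun n => n + L) := by
    intro n hn
    rw [Finset.mem_filter, Finset.mem_Icc] at hn
    rw [Finset.mem_union, Finset.mem_Icc, Finset.mem_image]
    rcases Nat.lt_or_ge L n with h | h
    · right
      refine ⟨n - L, ?_, by omega⟩
      rw [Finset.mem_filter, Finset.mem_Icc]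
      refine ⟨⟨by omega, by omega⟩, ?_⟩
      have : n - L + L = n := by omega
      rw [this]
      exact hn.2
    · left
      exact ⟨hn.1.1, h⟩
  have h2 := (Finset.card_le_card h1).trans (Finset.card_union_le _ _)
  rw [Nat.card_Icc, Nat.add_sub_cancel] at h2
  have h3 : (((Finset.Icc 1 N).filter (fun n => E (n + L))).image (fun n => n + L)).card ≤
      ((Finset.Icc 1 N).filter (fun n => E (n + L))).card := Finset.card_image_le
  have h4 : ((((Finset.Icc 1 N).filter E).card : ℕ) : ℝ) ≤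
      L + ((((Finset.Icc 1 N).filter (fun n => E (n + L))).card : ℕ) : ℝ) := by
    exact_mod_cast h2.trans (Nat.add_le_add_left h3 _)
  refine h4.trans ?_
  have h5 : (L : ℝ) ≤ η / 4 * N := by
    have h6 : 4 * (L : ℝ) ≤ L * η * L := by nlinarith
    have h7 : η * (L : ℝ) ^ 2 ≤ η * N := mul_le_mul_of_nonneg_left hNL hη.le
    nlinarith
  have h8 : (e + e) * N ≤ (η / 4 + η / 4) * N := mul_le_mul_of_nonneg_right (by linarith) hN0.le
  have h9 : 0 ≤ η * N := by positivity
  linarith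

end Pool.Agent.P8H71.EN
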